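import Mathlib
import Pool.Agent.Y278.SH.E

/-!
# Overdetermined Helmholtz problem: volume-preserving deformations, polynomial in time

Let `Ω` be any bounded open subset of `ℝⁿ` (in particular any domain of `ℝ³` as in the problem),
`v` a unit vector and `w ⊥ v`.

(A) Let `φ t` be maps which carry the volume of `Ω` to the volume of bounded sets `O t`, keep the
coordinate `⟨v, x⟩` and move the coordinate `⟨w, x⟩` to `h 0 x + t h 1 x + … + t^d h d x`, `d ≥ 1`,
`h j` continuous; nothing is assumed about the other coordinates. If `h d` takes some value on the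
closure of `Ω` only at points of a hyperplane `⟨v, x⟩ = c`, then for all but countably many real `t`
the Fourier transform of the indicator of `O t` vanishes on no sphere `|ξ| = k`, `k > 0`, and the
overdetermined problem has no nontrivial weak solution on `O t`, for any eigenvalue.

(B) Shears: let `W` be a subspace orthogonal to `v` and containing `w`, and let `H j` be continuous
vector fields with values in `W` which are constant along `W`. The same holds for the images of `Ω`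
under `x ↦ x + H 0 x + t H 1 x + … + t^d H d x`, if `⟨H d x, w⟩` takes some value on the closure of
`Ω` only at points of a hyperplane `⟨v, x⟩ = c`.
-/

set_option autoImplicit false

namespace Pool.Agent.Results.MP_f4af34_an.ShearedDomains

open MeasureTheory Set

/-- Euclidean space `ℝⁿ` -/
abbrev V (n : ℕ) : Type := EuclideanSpace ℝ (Fin n)

/-- The overdetermined problem `-Δu = lam u` in `Ω`, `∂u/∂N = 0` on `∂Ω`, `u = c` on `∂Ω` has a
nontrivial weak solution `u` for some real constant `c`; `G` is the weak gradient of `u`, and both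
boundary conditions are expressed by testing with functions that need not vanish on `∂Ω`. -/
def Solvable {n : ℕ} (Ω : Set (V n)) (lam : ℝ) : Prop :=
  ∃ (c : ℝ) (u : V n → ℝ) (G : V n → V n),
    MemLp u 2 (volume.restrict Ω) ∧ MemLp G 2 (volume.restrict Ω) ∧
    (∀ φ : V n → ℝ, ContDiff ℝ 1 φ → HasCompactSupport φ → ∀ v : V n,
      ∫ x in Ω, (u x - c) * (fderiv ℝ φ x v) = - ∫ x in Ω, inner ℝ (G x) v * φ x) ∧
    (∀ φ : V n → ℝ, ContDiff ℝ 1 φ → HasCompactSupport φ →
      ∫ x in Ω, fderiv ℝ φ x (G x) = lam * ∫ x in Ω, u x * φ x) ∧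
    ¬ (u =ᵐ[volume.restrict Ω] 0)

/-- The Fourier transform of the indicator of `Ω` vanishes on the sphere of radius `k` about the
origin. -/
def VanishesOnSphere {n : ℕ} (Ω : Set (V n)) (k : ℝ) : Prop :=
  ∀ ξ : V n, ‖ξ‖ = k → ∫ x in Ω, Complex.exp (Complex.I * (inner ℝ ξ x : ℝ)) = 0

/-- The map `x ↦ x + H 0 x + t H 1 x + … + t^d H d x`. -/
noncomputable def move {n : ℕ} (H : ℕ → V n → V n) (d : ℕ) (t : ℝ) (x : V n) : V n :=
  x + ∑ j ∈ Finset.range (d + 1), t ^ j • H j x

theorem result (n : ℕ) (Ω : Set (V n)) (ho : IsOpen Ω) (hb : Bornology.IsBounded Ω)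
    (v w : V n) (hv : ‖v‖ = 1) (hvw : (inner ℝ v w : ℝ) = 0) (d : ℕ) (hd : 1 ≤ d) (m c : ℝ) :
    -- (A) volume-preserving deformations
    (∀ (φ : ℝ → V n → V n) (O : ℝ → Set (V n)) (h : ℕ → V n → ℝ),
      (∀ t, Measurable (φ t)) → (∀ t, MeasurableSet (O t) ∧ Bornology.IsBounded (O t)) →
      (∀ t, (volume.restrict Ω).map (φ t) = volume.restrict (O t)) →
      (∀ t, ∀ x ∈ Ω, (inner ℝ v (φ t x) : ℝ) = inner ℝ v x) →
      (∀ t, ∀ x ∈ Ω, (inner ℝ w (φ t x) : ℝ) = ∑ j ∈ Finset.range (d + 1), t ^ j * h j x) →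
      (∀ j, Continuous (h j)) →
      (∃ x ∈ closure Ω, h d x = m) →
      (∀ x ∈ closure Ω, h d x = m → (inner ℝ v x : ℝ) = c) →
      {t : ℝ | ∃ k : ℝ, 0 < k ∧ VanishesOnSphere (O t) k}.Countable ∧
      {t : ℝ | ∃ lam : ℝ, 0 < lam ∧ Solvable (O t) lam}.Countable) ∧
    -- (B) shears
    (∀ (W : Submodule ℝ (V n)) (H : ℕ → V n → V n),
      w ∈ W → (∀ y ∈ W, (inner ℝ v y : ℝ) = 0) →
      (∀ j, Continuous (H j)) → (∀ j x, H j x ∈ W) →
      (∀ j x, ∀ y ∈ W, H j (x + y) = H j x) →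
      (∃ x ∈ closure Ω, (inner ℝ (H d x) w : ℝ) = m) →
      (∀ x ∈ closure Ω, (inner ℝ (H d x) w : ℝ) = m → (inner ℝ v x : ℝ) = c) →
      {t : ℝ | ∃ k : ℝ, 0 < k ∧ VanishesOnSphere (move H d t '' Ω) k}.Countable ∧
      {t : ℝ | ∃ lam : ℝ, 0 < lam ∧ Solvable (move H d t '' Ω) lam}.Countable) := by
  constructor
  · intro φ O h hφ hO hp h1v h1w hhc hm hs
    have h1 := Pool.Agent.Y278.SH.ft_countable' hv hvw ho hb hφ hp h1v hhc
      (Nat.one_le_iff_ne_zero.mp hd) h1w hm hs
    refine ⟨h1, h1.mono ?_⟩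
    rintro t ⟨lam, hlam, c', u, G, hu, -, h3, h4, h5⟩
    exact ⟨√lam, Real.sqrt_pos.mpr hlam,
      Pool.Agent.Y278.SH.FZ_of_solvable (hO t).2 (hO t).1 hlam hu h3 h4 h5⟩
  · intro W H hw hvW hc hW hi hm hs
    have h1 := Pool.Agent.Y278.SH.ft_countable hv hvW hw ho hb hc hW hi
      (Nat.one_le_iff_ne_zero.mp hd) hm hs
    refine ⟨h1, h1.mono ?_⟩
    rintro t ⟨lam, hlam, c', u, G, hu, -, h3, h4, h5⟩
    have hopen : IsOpen (move H d t '' Ω) :=
      Pool.Agent.Y278.SH.isOpen_shear W _ (Pool.Agent.Y278.SH.fld_cont hc d t)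
        (Pool.Agent.Y278.SH.fld_mem hW d t) (Pool.Agent.Y278.SH.fld_inv hi d t) ho
    have hbdd : Bornology.IsBounded (move H d t '' Ω) :=
      Pool.Agent.Y278.SH.bdd_shear _ (Pool.Agent.Y278.SH.fld_cont hc d t) hb
    exact ⟨√lam, Real.sqrt_pos.mpr hlam,
      Pool.Agent.Y278.SH.FZ_of_solvable hbdd hopen.measurableSet hlam hu h3 h4 h5⟩

end Pool.Agent.Results.MP_f4af34_an.ShearedDomains
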